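import Pool.Agent.T2H67.WA.Gen
import Pool.Agent.TH766.HP.Alg
import Pool.Agent.TH783.CE.NF

/-!
# Points with large first coordinate on the completions of a variety
-/

set_option autoImplicit false

namespace Pool.Agent.T2H67.WA

open Polynomial Pool.Agent.TH766.HP Pool.Agent.TH783.CE

/-- A basic existential condition `∃ z, f₁(a, b, z) = … = f_r(a, b, z) = 0, g(a, b, z) ≠ 0` on the
pair `(a, b)`. -/
structure Piece (K : Type) [Field K] where
  /-- the number of quantified variables -/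
  n : ℕ
  /-- the number of equations -/
  r : ℕ
  /-- the equations -/
  f : Fin r → MvPolynomial (Fin 2 ⊕ Fin n) K
  /-- the inequation -/
  g : MvPolynomial (Fin 2 ⊕ Fin n) K

namespace Piece

variable {K : Type} [Field K] (W : Piece K)

/-- The points `(a, z)` over `k` of the variety `W_b` over `K`; here `k` is a field with an
embedding `σ` of `K`. -/
def Sol {k : Type} [Field k] (σ : K →+* k) (b : K) (a : k) (z : Fin W.n → k) : Prop :=
  (∀ j, MvPolynomial.eval₂ σ (Sum.elim ![a, σ b] z) (W.f j) = 0) ∧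
    MvPolynomial.eval₂ σ (Sum.elim ![a, σ b] z) W.g ≠ 0

/-- The relation between `a, b ∈ K` defined by `W`. -/
def Rel (a b : K) : Prop := ∃ z : Fin W.n → K, W.Sol (RingHom.id K) b a z

/-- The points over `K` of `W_b` are dense in the points over the completion `ℚ_[p]` of `K` given
by the embedding `σ`. -/
def DenseAt (b : K) {p : ℕ} [Fact p.Prime] (σ : K →+* ℚ_[p]) : Prop :=
  ∀ (a : ℚ_[p]) (z : Fin W.n → ℚ_[p]), W.Sol σ b a z → ∀ ε : ℝ, 0 < ε →
    ∃ (a' : K) (z' : Fin W.n → K), W.Sol (RingHom.id K) b a' z' ∧ ‖σ a' - a‖ < ε ∧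
      ∀ i, ‖σ (z' i) - z i‖ < ε

end Piece

section

variable {K : Type} [Field K] [NumberField K]

/-- the generator of the number field -/
noncomputable def pbK (K : Type) [Field K] [NumberField K] : PowerBasis ℚ K :=
  Field.powerBasisOfFiniteOfSeparable ℚ K

theorem exists_rep (c : K) : ∃ f : ℚ[X], c = aeval (pbK K).gen f := (pbK K).exists_eq_aeval' c

/-- a polynomial with a given value at the generator -/
noncomputable def rep (c : K) : ℚ[X] := (exists_rep c).choose

theorem rep_spec (c : K) : aeval (pbK K).gen (rep c) = c := (exists_rep c).choose_spec.symm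

/-- the coefficients as polynomials -/
noncomputable def cf (ι : Type) (c : K) : MvPolynomial (Option (Option ι)) ℚ[X] :=
  aeval (MvPolynomial.X none) (rep c)

/-- the variables -/
noncomputable def vr {n : ℕ} (b : K) :
    Fin 2 ⊕ Fin n → MvPolynomial (Option (Option (Fin n))) ℚ[X] :=
  Sum.elim ![MvPolynomial.C X, cf (Fin n) b] fun l => MvPolynomial.X (some (some l))

/-- the polynomials over `ℚ` -/
noncomputable def tl {n : ℕ} (b : K) (f : MvPolynomial (Fin 2 ⊕ Fin n) K) :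
    MvPolynomial (Option (Option (Fin n))) ℚ[X] :=
  ∑ d ∈ f.support, cf (Fin n) (f.coeff d) * ∏ i ∈ d.support, vr b i ^ d i

/-- evaluation -/
noncomputable def evx {k : Type} [Field k] [Algebra ℚ k] {ι : Type} (x : k) (y : ι → k) :
    MvPolynomial ι ℚ[X] →+* k :=
  MvPolynomial.eval₂Hom ((aeval x : ℚ[X] →ₐ[ℚ] k) : ℚ[X] →+* k) y

theorem evx_aeval {k : Type} [Field k] [Algebra ℚ k] {ι : Type} (x : k) (y : ι → k)
    (P : MvPolynomial ι ℚ[X]) (q : ℚ[X]) : evx x y (aeval P q) = aeval (evx x y P) q := by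
  rw [aeval_def, aeval_def, hom_eval₂]
  congr 1
  exact Subsingleton.elim _ _

theorem evx_cf {k : Type} [Field k] [Algebra ℚ k] {n : ℕ} (x : k)
    (y : Option (Option (Fin n)) → k) (σ : K →+* k)
    (hσ : ∀ c, σ c = aeval (y none) (rep c)) (c : K) : evx x y (cf (Fin n) c) = σ c := by
  rw [cf, evx_aeval, hσ]
  congr 2
  exact MvPolynomial.eval₂Hom_X' _ _ _

theorem evx_vr {k : Type} [Field k] [Algebra ℚ k] {n : ℕ} (b : K) (x : k)
    (y : Option (Option (Fin n)) → k) (σ : K →+* k)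
    (hσ : ∀ c, σ c = aeval (y none) (rep c)) (i : Fin 2 ⊕ Fin n) :
    evx x y (vr b i) =
      (Sum.elim ![x, σ b] (fun l => y (some (some l))) : Fin 2 ⊕ Fin n → k) i := by
  rcases i with i | l
  · fin_cases i
    · show evx x y (MvPolynomial.C X) = x
      rw [evx, MvPolynomial.eval₂Hom_C]
      exact aeval_X x
    · exact evx_cf x y σ hσ b
  · exact MvPolynomial.eval₂Hom_X' _ _ _

theorem evx_tl {k : Type} [Field k] [Algebra ℚ k] {n : ℕ} (b : K) (x : k)
    (y : Option (Option (Fin n)) → k) (σ : K →+* k)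
    (hσ : ∀ c, σ c = aeval (y none) (rep c)) (f : MvPolynomial (Fin 2 ⊕ Fin n) K) :
    evx x y (tl b f) =
      MvPolynomial.eval₂ σ (Sum.elim ![x, σ b] fun l => y (some (some l))) f := by
  rw [MvPolynomial.eval₂_eq, tl, map_sum]
  refine Finset.sum_congr rfl fun d _ => ?_
  rw [map_mul, map_prod, evx_cf x y σ hσ]
  congr 1
  refine Finset.prod_congr rfl fun i _ => ?_
  rw [map_pow, evx_vr b x y σ hσ]

/-- the system over `ℚ` -/
noncomputable def sys (W : Piece K) (b : K) :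
    Fin (W.r + 2) → MvPolynomial (Option (Option (Fin W.n))) ℚ[X] :=
  Fin.cons (aeval (MvPolynomial.X none) (minpoly ℚ (pbK K).gen))
    (Fin.cons (MvPolynomial.X (some none) * tl b W.g - 1) fun j => tl b (W.f j))

theorem sys_of_sol (W : Piece K) (b a : K) (h : W.Rel a b) : HasAff K (sys W b) a := by
  obtain ⟨z, h1, h2⟩ := h
  let y : Option (Option (Fin W.n)) → K := fun i => match i with
    | none => (pbK K).gen
    | some none => (MvPolynomial.eval₂ (RingHom.id K) (Sum.elim ![a, RingHom.id K b] z) W.g)⁻¹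
    | some (some l) => z l
  have hσ : ∀ c : K, RingHom.id K c = aeval (y none) (rep c) := fun c => (rep_spec c).symm
  have hz : (fun l => y (some (some l))) = z := rfl
  refine ⟨y, fun j => ?_⟩
  show evx a y (sys W b j) = 0
  refine Fin.cases ?_ (fun j => Fin.cases ?_ (fun j => ?_) j) j
  · show evx a y (aeval (MvPolynomial.X none) (minpoly ℚ (pbK K).gen)) = 0
    rw [evx_aeval]
    have : evx a y (MvPolynomial.X none) = (pbK K).gen := MvPolynomial.eval₂Hom_X' _ _ _
    rw [this]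
    exact minpoly.aeval ℚ _
  · show evx a y (MvPolynomial.X (some none) * tl b W.g - 1) = 0
    rw [map_sub, map_mul, map_one, evx_tl b a y _ hσ, hz]
    have : evx a y (MvPolynomial.X (some none)) =
        (MvPolynomial.eval₂ (RingHom.id K) (Sum.elim ![a, RingHom.id K b] z) W.g)⁻¹ :=
      MvPolynomial.eval₂Hom_X' _ _ _
    rw [this, inv_mul_cancel₀ h2, sub_self]
  · show evx a y (tl b (W.f j)) = 0
    rw [evx_tl b a y _ hσ, hz]
    exact h1 j

theorem sol_of_sys (W : Piece K) (b : K) {k : Type} [Field k] [Algebra ℚ k] (x : k)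
    (h : HasAff k (sys W b) x) : ∃ (σ : K →+* k) (z : Fin W.n → k), W.Sol σ b x z := by
  obtain ⟨y, hy⟩ := h
  have hy' : ∀ j, evx x y (sys W b j) = 0 := hy
  have h0 := hy' 0
  have h1 := hy' 1
  have e0 : evx x y (aeval (MvPolynomial.X none) (minpoly ℚ (pbK K).gen)) = 0 := h0
  have e1 : evx x y (MvPolynomial.X (some none) * tl b W.g - 1) = 0 := h1
  rw [evx_aeval] at e0
  have e2 : evx x y (MvPolynomial.X none) = y none := MvPolynomial.eval₂Hom_X' _ _ _
  rw [e2] at e0
  let σ : K →+* k := ((pbK K).lift (y none) e0 : K →ₐ[ℚ] k)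
  have hσ : ∀ c : K, σ c = aeval (y none) (rep c) := by
    intro c
    have h3 : σ c = ((pbK K).lift (y none) e0 : K →ₐ[ℚ] k) (aeval (pbK K).gen (rep c)) := by
      rw [rep_spec]
      rfl
    rw [h3, (pbK K).lift_aeval]
  refine ⟨σ, fun l => y (some (some l)), fun j => ?_, fun h => ?_⟩
  · rw [← evx_tl b x y σ hσ]
    exact hy' j.succ.succ
  · rw [map_sub, map_mul, map_one, evx_tl b x y σ hσ, h, mul_zero, zero_sub, neg_eq_zero] at e1
    exact one_ne_zero e1

/-- **Points with large first coordinate.** If `W_b` has points over `K` with infinitely many first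
coordinates then there is an integer polynomial `h`, not constant, such that for every prime `p` for
which `h` has a root in `ℚ_[p]` there are points over `ℚ_[p]` with arbitrarily large first
coordinate, for suitable embeddings of `K`. -/
theorem large (W : Piece K) (b : K) (hinf : {a | W.Rel a b}.Infinite) :
    ∃ h : ℤ[X], 0 < h.natDegree ∧ ∀ (p : ℕ) [Fact p.Prime], (∃ t : ℚ_[p], aeval t h = 0) →
      ∀ B : ℝ, ∃ (σ : K →+* ℚ_[p]) (a : ℚ_[p]) (z : Fin W.n → ℚ_[p]), W.Sol σ b a z ∧ B < ‖a‖ := by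
  rcases gen_aff (sys W b) with ⟨D, hD, h⟩ | ⟨g, E, hg, hE, h⟩
  · exfalso
    apply hinf
    refine (D.rootSet_finite K).subset fun a ha => ?_
    rw [mem_rootSet]
    exact ⟨hD, h K a (sys_of_sol W b a ha)⟩
  obtain ⟨M, h', hM, hh, hpui⟩ := pui g hg
  refine ⟨h', hh, fun p _ hp B => ?_⟩
  obtain ⟨c, hc⟩ := hpui p hp
  obtain ⟨c', hc'⟩ := eval_ne_large p E hE
  have hp1 : (1 : ℝ) < p := by exact_mod_cast (Fact.out : p.Prime).one_lt
  obtain ⟨N, hN⟩ := pow_unbounded_of_one_lt (max (max c c') (max B 1)) hp1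
  set w : ℚ_[p] := ((p : ℚ_[p])⁻¹) ^ N with hw
  have hwn : ‖w‖ = (p : ℝ) ^ N := by
    rw [hw, norm_pow, norm_inv, Padic.norm_p, inv_inv]
  have h1 : 1 < ‖w‖ := by
    rw [hwn]
    exact ((le_max_right _ _).trans (le_max_right _ _)).trans_lt hN
  have h2 : c < ‖w‖ := by
    rw [hwn]
    exact ((le_max_left _ _).trans (le_max_left _ _)).trans_lt hN
  have h3 : ‖w‖ ≤ ‖w ^ M‖ := by
    have h0 : ‖w ^ M‖ = ‖w‖ ^ M := norm_pow w M
    rw [h0]
    calc ‖w‖ = ‖w‖ ^ 1 := (pow_one _).symm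
      _ ≤ ‖w‖ ^ M := pow_le_pow_right₀ h1.le (Nat.one_le_iff_ne_zero.2 hM)
  have h4 : c' < ‖w ^ M‖ := by
    refine lt_of_lt_of_le ?_ h3
    rw [hwn]
    exact ((le_max_right _ _).trans (le_max_left _ _)).trans_lt hN
  have h5 : B < ‖w ^ M‖ := by
    refine lt_of_lt_of_le ?_ h3
    rw [hwn]
    exact ((le_max_left _ _).trans (le_max_right _ _)).trans_lt hN
  obtain ⟨t, ht⟩ := hc w h2
  obtain ⟨σ, z, hz⟩ := sol_of_sys W b (w ^ M) (h ℚ_[p] (w ^ M) t (hc' _ h4) ht)
  exact ⟨σ, w ^ M, z, hz, h5⟩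

/-- **Failure of weak approximation.** -/
theorem not_dense (Q : Set ℕ) (W : Piece K) (b : K) (hinf : {a | W.Rel a b}.Infinite)
    (hno : ∀ a, W.Rel a b → a ∈ NoPole K Q) :
    ∃ h : ℤ[X], 0 < h.natDegree ∧ ∀ (p : ℕ) [Fact p.Prime], p ∈ Q →
      (∃ t : ℚ_[p], aeval t h = 0) → ∃ σ : K →+* ℚ_[p], ¬ W.DenseAt b σ := by
  obtain ⟨h, hh, hl⟩ := large W b hinf
  refine ⟨h, hh, fun p hp hpQ ht => ?_⟩
  obtain ⟨σ, a, z, hz, ha⟩ := hl p ht 1
  refine ⟨σ, fun hd => ?_⟩
  obtain ⟨a', z', hz', ha', -⟩ := hd a z hz 1 one_pos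
  have h1 := hno a' ⟨z', hz'⟩
  obtain ⟨v, hv, hv'⟩ := exists_place σ
  have h2 := hv' a' (h1 v ⟨p, hp.out, hpQ, hv⟩)
  have h3 : ‖a‖ ≤ max ‖σ a'‖ ‖a - σ a'‖ := by
    have : a = σ a' + (a - σ a') := by ring
    conv_lhs => rw [this]
    exact Padic.nonarchimedean _ _
  rw [norm_sub_rev] at h3
  have h4 : max ‖σ a'‖ ‖σ a' - a‖ ≤ 1 := max_le h2 ha'.le
  linarith

end

end Pool.Agent.T2H67.WA
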