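import Pool.Agent.TH146.GEN.Gen

/-!
# Generic points of an affine family over `ℚ(x)`
-/

set_option autoImplicit false

namespace Pool.Agent.T2H67.WA

open Polynomial Pool.Agent.TH766.HP

/-- The fibre at `x` of the affine family given by the polynomials `F j (x; y)` has a point over
`k`. -/
def HasAff (k : Type) [Field k] [Algebra ℚ k] {ι : Type} {r : ℕ}
    (F : Fin r → MvPolynomial ι ℚ[X]) (x : k) : Prop :=
  ∃ y : ι → k, ∀ j, MvPolynomial.eval₂ ((aeval x : ℚ[X] →ₐ[ℚ] k) : ℚ[X] →+* k) y (F j) = 0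

/-- clearing denominators -/
theorem hom_clear {R S ι : Type} [CommRing R] [CommRing S] (i : R →+* S) (f : MvPolynomial ι R)
    (A : ι → S) (D : S) : ∃ (H : S) (N : ℕ), ∀ (k : Type) [Field k] (φ : S →+* k), φ D ≠ 0 →
      φ H = φ D ^ N * MvPolynomial.eval₂ (φ.comp i) (fun l => φ (A l) / φ D) f := by
  classical
  refine ⟨∑ m ∈ f.support, i (f.coeff m) * ((∏ l ∈ m.support, A l ^ m l) *
    D ^ (f.totalDegree - ∑ l ∈ m.support, m l)), f.totalDegree, fun k _ φ hD => ?_⟩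
  rw [MvPolynomial.eval₂_eq, map_sum, Finset.mul_sum]
  refine Finset.sum_congr rfl fun m hm => ?_
  have h1 : ∑ l ∈ m.support, m l ≤ f.totalDegree := MvPolynomial.le_totalDegree hm
  have h2 : ∏ l ∈ m.support, (φ (A l) / φ D) ^ m l =
      (∏ l ∈ m.support, φ (A l) ^ m l) / φ D ^ (∑ l ∈ m.support, m l) := by
    rw [← Finset.prod_pow_eq_pow_sum, ← Finset.prod_div_distrib]
    exact Finset.prod_congr rfl fun l _ => div_pow _ _ _
  have h3 : φ D ^ f.totalDegree = φ D ^ (f.totalDegree - ∑ l ∈ m.support, m l) *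
      φ D ^ (∑ l ∈ m.support, m l) := by
    rw [← pow_add, Nat.sub_add_cancel h1]
  rw [h2, h3, map_mul, map_mul, map_prod, map_pow]
  simp only [map_pow, RingHom.comp_apply]
  have h4 : φ D ^ (∑ l ∈ m.support, m l) ≠ 0 := pow_ne_zero _ hD
  field_simp

theorem pos_aff {ι : Type} [Finite ι] {r : ℕ} (F : Fin r → MvPolynomial ι ℚ[X])
    {L : Type} [Field L] [Algebra TH146.GEN.K L] [FiniteDimensional TH146.GEN.K L] (y : ι → L)
    (hy : ∀ j, MvPolynomial.eval₂ ((algebraMap TH146.GEN.K L).comp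
      (algebraMap ℚ[X] TH146.GEN.K)) y (F j) = 0) :
    ∃ (g : ℚ[X][X]) (E : ℚ[X]), Sep g ∧ E ≠ 0 ∧ ∀ (k : Type) [Field k] [Algebra ℚ k] (x t : k),
      aeval x E ≠ 0 → (g.map ((aeval x : ℚ[X] →ₐ[ℚ] k) : ℚ[X] →+* k)).eval t = 0 →
        HasAff k F x := by
  classical
  have : Fintype ι := Fintype.ofFinite ι
  let pb := Field.powerBasisOfFiniteOfSeparable TH146.GEN.K L
  set θ : L := pb.gen with hθ
  have hR : ∀ l, ∃ R : TH146.GEN.K[X], y l = aeval θ R := fun l => pb.exists_eq_aeval' (y l)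
  choose R hR using hR
  choose A' d hd hA' using fun l => TH146.GEN.clear (R l)
  let D0 : ℚ[X] := ∏ l, d l
  have hD0 : D0 ≠ 0 := Finset.prod_ne_zero_iff.2 fun l _ => hd l
  let A : ι → ℚ[X][X] := fun l => C (∏ m ∈ Finset.univ.erase l, d m) * A' l
  have hA : ∀ l, (A l).map (algebraMap ℚ[X] TH146.GEN.K) =
      C (algebraMap ℚ[X] TH146.GEN.K D0) * R l := by
    intro l
    simp only [A, D0, Polynomial.map_mul, Polynomial.map_C, hA']
    rw [← Finset.mul_prod_erase Finset.univ d (Finset.mem_univ l), map_mul, map_mul]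
    ring
  set g0 : TH146.GEN.K[X] := minpoly TH146.GEN.K θ with hg0
  have hint : IsIntegral TH146.GEN.K θ := IsIntegral.of_finite TH146.GEN.K θ
  have hirr : Irreducible g0 := minpoly.irreducible hint
  obtain ⟨g, c, hc, hg⟩ := TH146.GEN.clear g0
  let ψ : ℚ[X][X] →+* L :=
    ((aeval θ : TH146.GEN.K[X] →ₐ[TH146.GEN.K] L) : TH146.GEN.K[X] →+* L).comp
      (Polynomial.mapRingHom (algebraMap ℚ[X] TH146.GEN.K))
  have hψ : ∀ P : ℚ[X][X], ψ P = 0 → ∃ (e : ℚ[X]) (Q : ℚ[X][X]), e ≠ 0 ∧ C e * P = g * Q := by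
    intro P hP
    exact TH146.GEN.van hc hg P (minpoly.dvd TH146.GEN.K θ hP)
  have hψA : ∀ l, ψ (A l) =
      (algebraMap TH146.GEN.K L (algebraMap ℚ[X] TH146.GEN.K D0)) * y l := by
    intro l
    change aeval θ ((A l).map (algebraMap ℚ[X] TH146.GEN.K)) = _
    rw [hA, map_mul, aeval_C, hR]
  have hψC : ψ.comp C = (algebraMap TH146.GEN.K L).comp (algebraMap ℚ[X] TH146.GEN.K) := by
    ext q
    · change aeval θ ((C (C q)).map (algebraMap ℚ[X] TH146.GEN.K)) = _
      rw [Polynomial.map_C, aeval_C]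
      rfl
    · change aeval θ ((C X).map (algebraMap ℚ[X] TH146.GEN.K)) = _
      rw [Polynomial.map_C, aeval_C]
      rfl
  have hψD : ψ (C D0) ≠ 0 := by
    have h1 : ψ (C D0) = (ψ.comp C) D0 := rfl
    rw [h1, hψC, RingHom.comp_apply]
    rw [Ne, map_eq_zero, map_eq_zero_iff _ TH146.GEN.inj]
    exact hD0
  choose H N hH using fun j => hom_clear (C : ℚ[X] →+* ℚ[X][X]) (F j) A (C D0)
  have h1 : ∀ j, ∃ (e : ℚ[X]) (Q : ℚ[X][X]), e ≠ 0 ∧ C e * H j = g * Q := by
    intro j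
    apply hψ
    rw [hH j L ψ hψD, hψC]
    have h2 : (fun l => ψ (A l) / ψ (C D0)) = y := by
      funext l
      rw [hψA]
      have h3 : ψ (C D0) = algebraMap TH146.GEN.K L (algebraMap ℚ[X] TH146.GEN.K D0) := by
        have h1 : ψ (C D0) = (ψ.comp C) D0 := rfl
        rw [h1, hψC, RingHom.comp_apply]
      rw [h3] at hψD ⊢
      rw [mul_div_cancel_left₀ _ hψD]
    rw [h2, hy, mul_zero]
  choose e Q he hQ using h1
  refine ⟨g, D0 * ∏ j, e j, TH146.GEN.sep_of_irreducible hirr hc hg,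
    mul_ne_zero hD0 (Finset.prod_ne_zero_iff.2 fun j _ => he j), ?_⟩
  intro k _ _ x t hE hgt
  rw [map_mul] at hE
  have hE1 : aeval x D0 ≠ 0 := left_ne_zero_of_mul hE
  have hE3 : ∀ j, aeval x (e j) ≠ 0 := by
    intro j
    have h2 := right_ne_zero_of_mul hE
    rw [map_prod] at h2
    exact Finset.prod_ne_zero_iff.1 h2 j (Finset.mem_univ j)
  let φ : ℚ[X][X] →+* k := Polynomial.eval₂RingHom ((aeval x : ℚ[X] →ₐ[ℚ] k) : ℚ[X] →+* k) t
  have hφC : ∀ q : ℚ[X], φ (C q) = aeval x q := by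
    intro q
    simp [φ]
  have hφg : φ g = 0 := by
    rw [Polynomial.eval_map] at hgt
    exact hgt
  refine ⟨fun l => φ (A l) / φ (C D0), fun j => ?_⟩
  have h2 := congrArg φ (hQ j)
  rw [map_mul, map_mul, hφg, zero_mul, hφC] at h2
  have h4 := (mul_eq_zero.1 h2).resolve_left (hE3 j)
  rw [hH j k φ (by rw [hφC]; exact hE1)] at h4
  have h5 := (mul_eq_zero.1 h4).resolve_left (pow_ne_zero _ (by rw [hφC]; exact hE1))
  have h3 : φ.comp C = ((aeval x : ℚ[X] →ₐ[ℚ] k) : ℚ[X] →+* k) := by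
    refine RingHom.ext fun q => ?_
    exact hφC q
  rw [h3] at h5
  exact h5

attribute [local instance] MvPolynomial.algebraMvPolynomial in
/-- Either the fibres with points lie over the roots of a polynomial, or there are points given by
algebraic functions. -/
theorem gen_aff {ι : Type} [Finite ι] {r : ℕ} (F : Fin r → MvPolynomial ι ℚ[X]) :
    (∃ D : ℚ[X], D ≠ 0 ∧ ∀ (k : Type) [Field k] [Algebra ℚ k] (x : k), HasAff k F x →
      aeval x D = 0) ∨
    ∃ (g : ℚ[X][X]) (E : ℚ[X]), Sep g ∧ E ≠ 0 ∧ ∀ (k : Type) [Field k] [Algebra ℚ k] (x t : k),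
      aeval x E ≠ 0 → (g.map ((aeval x : ℚ[X] →ₐ[ℚ] k) : ℚ[X] →+* k)).eval t = 0 →
        HasAff k F x := by
  classical
  by_cases hcase : ∃ D : ℚ[X], D ≠ 0 ∧
      (MvPolynomial.C D : MvPolynomial ι ℚ[X]) ∈ Ideal.span (Set.range F)
  · obtain ⟨D, hD, hm⟩ := hcase
    refine Or.inl ⟨D, hD, fun k _ _ x ⟨y, hy⟩ => ?_⟩
    let f : ℚ[X] →+* k := ((aeval x : ℚ[X] →ₐ[ℚ] k) : ℚ[X] →+* k)
    let φ : MvPolynomial ι ℚ[X] →+* k := MvPolynomial.eval₂Hom f y
    have hφ : Ideal.span (Set.range F) ≤ RingHom.ker φ := by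
      rw [Ideal.span_le]
      rintro _ ⟨j, rfl⟩
      exact hy j
    have h1 : φ (MvPolynomial.C D) = 0 := hφ hm
    have h3 : φ (MvPolynomial.C D) = f D := MvPolynomial.eval₂Hom_C _ _ _
    rw [h3] at h1
    exact h1
  · right
    push Not at hcase
    let f : MvPolynomial ι ℚ[X] →+* MvPolynomial ι TH146.GEN.K :=
      MvPolynomial.map (algebraMap ℚ[X] TH146.GEN.K)
    have hne : Ideal.map (algebraMap (MvPolynomial ι ℚ[X]) (MvPolynomial ι TH146.GEN.K))
        (Ideal.span (Set.range F)) ≠ ⊤ := by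
      rw [IsLocalization.map_algebraMap_ne_top_iff_disjoint
        ((nonZeroDivisors ℚ[X]).map (MvPolynomial.C (σ := ι)))]
      rw [Set.disjoint_left]
      rintro _ ⟨D, hD, rfl⟩ hmem
      exact hcase D (nonZeroDivisors.ne_zero hD) hmem
    obtain ⟨m, hm, hle⟩ := Ideal.exists_le_maximal _ hne
    let : Field (MvPolynomial ι TH146.GEN.K ⧸ m) := Ideal.Quotient.field m
    have : FiniteDimensional TH146.GEN.K (MvPolynomial ι TH146.GEN.K ⧸ m) :=
      finite_of_finite_type_of_isJacobsonRing TH146.GEN.K _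
    refine pos_aff F (L := MvPolynomial ι TH146.GEN.K ⧸ m)
      (fun l => Ideal.Quotient.mk m (MvPolynomial.X l)) ?_
    intro j
    have hz : Ideal.Quotient.mk m (f (F j)) = 0 := by
      rw [Ideal.Quotient.eq_zero_iff_mem]
      exact hle (Ideal.mem_map_of_mem _ (Ideal.subset_span ⟨j, rfl⟩))
    rw [← hz]
    have h3 : (MvPolynomial.eval₂Hom
        ((algebraMap TH146.GEN.K (MvPolynomial ι TH146.GEN.K ⧸ m)).comp
          (algebraMap ℚ[X] TH146.GEN.K))
        (fun l => Ideal.Quotient.mk m (MvPolynomial.X l))) = (Ideal.Quotient.mk m).comp f := by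
      apply MvPolynomial.ringHom_ext
      · intro q
        simp only [MvPolynomial.eval₂Hom_C, RingHom.comp_apply, f, MvPolynomial.map_C]
        rfl
      · intro l
        simp only [MvPolynomial.eval₂Hom_X', RingHom.comp_apply, f, MvPolynomial.map_X]
    exact congrArg (fun h => h (F j)) h3

end Pool.Agent.T2H67.WA
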